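import Pool.Agent.H24.Five
import Pool.Agent.H24.Count

/-!
Explicit congruences for the Tunnell difference `2|C_n| - |D_n|` when `n = 18 mod 32` and when
`n = 10 mod 16`.
-/

namespace Pool.Agent.Results.MP_f126a2_nt.TunnellMod32

open Pool.Agent.H24 PowerSeries

theorem general (N : ℕ) (hN : N % 2 = 1) (hsq : ¬ IsSquare (8 * N + 1)) : ∃ z : ℤ,
    6 * (2 * (cardC (2 * (8 * N + 1)) : ℤ) - cardD (2 * (8 * N + 1)))
      = (r3 (8 * N + 1) : ℤ) - r3 (2 * (8 * N + 1))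
        + 24 * ((r2 16 (8 * N + 1) : ℤ) + r2 32 (8 * N + 1)) + 192 * z := by
  obtain ⟨z, hz⟩ := main_odd N hN (coeff_ph_zero N hsq _) (coeff_ph_zero N hsq _)
  have e2 := coeff_r2 2 N (by norm_num)
  have e3 := coeff_r2 4 N (by norm_num)
  have e4 := coeff_diff N
  have e5 := r3_eq N hsq
  have e6 := r3_double N
  obtain ⟨w, hw⟩ := r2odd_four N
  rw [coeff_cardC, coeff_cardD, e5, e6]
  norm_num at e2 e3
  refine ⟨z - w, ?_⟩
  linarith

/-- Explicit congruence modulo 192 for `6 (2|C_n| - |D_n|)` when `n = 18 mod 32` and `n / 2` is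
not a square, and modulo 64 for `2 (2|C_n| - |D_n|)` when `n = 10 mod 16`. -/
theorem result :
    (∀ n : ℕ, n % 32 = 18 → ¬ IsSquare (n / 2) →
      6 * (2 * (cardC n : ℤ) - cardD n) ≡
        (r3 (n / 2) : ℤ) - r3 n + 24 * ((r2 16 (n / 2) : ℤ) + r2 32 (n / 2)) [ZMOD 192]) ∧
    (∀ n : ℕ, n % 16 = 10 →
      2 * (2 * (cardC n : ℤ) - cardD n) ≡
        2 * (cardD n : ℤ) + 3 * cm 4 (n / 2) - (ArithmeticFunction.sigma 1 (n / 2) : ℤ)
          [ZMOD 64]) := by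
  constructor
  · intro n hn hsq
    obtain ⟨N, hN⟩ : ∃ N, n = 2 * (8 * N + 1) := ⟨n / 16, by omega⟩
    have hm : n / 2 = 8 * N + 1 := by omega
    have hN2 : N % 2 = 1 := by omega
    rw [hm] at hsq ⊢
    obtain ⟨z, hz⟩ := general N hN2 hsq
    rw [hN]
    apply Int.ModEq.symm
    rw [Int.modEq_iff_dvd]
    exact ⟨z, by linarith⟩
  · intro n hn
    obtain ⟨N, hN⟩ : ∃ N, n = 2 * (8 * N + 5) := ⟨n / 16, by omega⟩
    have hm : n / 2 = 8 * N + 5 := by omega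
    obtain ⟨z, hz⟩ := main_five N
    rw [hm, hN]
    apply Int.ModEq.symm
    rw [Int.modEq_iff_dvd]
    exact ⟨-z, by linarith⟩

end Pool.Agent.Results.MP_f126a2_nt.TunnellMod32
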